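import Mathlib
import Pool.Prelude.Def_F_c31e40fa
import Pool.Agent.TH425.AD.D19

set_option autoImplicit false

open Filter Topology MeasureTheory Set N62a1eb23

namespace Pool.Agent.Results.MP_fcb70f_an.AlmostAllRaysTwist

open Pool.Agent.H713R2

/-- Almost all parameter rays of the Multibrot sets of power `d ≥ 3`. Let `ψ` be the exterior
conformal map (it exists). There is a subset `Z` of the boundary, of vanishing one dimensional
Hausdorff measure, such that for almost every angle `θ` the parameter ray lands at a point `c` of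
`Z`; the point `c` alone is a connected component of the set minus any open segment that starts at
`c`; every path `γ` which ends at `c`, and which avoids the set, or the ray, or some nondegenerate
connected subset of the set that contains `c`, winds around `c` without bound in both directions: a
continuous argument `φ` of `γ - c` exists, and each is unbounded above and below at the end of the
path; the continuous argument of `ψ'` along the ray exists and is unbounded above and below; and the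
modulus of `ψ'` takes arbitrarily large and arbitrarily small values. -/
theorem result (d : ℕ) (hd : 3 ≤ d) :
    (∃ ψ : ℂ → ℂ, IsExteriorMap (multibrotSet d) ψ) ∧
    ∀ ψ : ℂ → ℂ, IsExteriorMap (multibrotSet d) ψ →
      ∃ Z : Set ℂ, Z ⊆ frontier (multibrotSet d) ∧ μH[1] Z = 0 ∧
        ∀ᵐ θ : ℝ, ∃ c ∈ Z,
          Tendsto (fun r : ℝ => ψ (r * Complex.exp (θ * Complex.I))) (𝓝[>] 1) (𝓝 c) ∧
          (∀ p : ℂ, p ≠ c →
            connectedComponentIn (multibrotSet d \ openSegment ℝ c p) c = {c}) ∧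
          (∀ γ : ℝ → ℂ, ContinuousOn γ (Ioc 0 1) → Tendsto γ (𝓝[>] 0) (𝓝 c) →
            (∀ t ∈ Ioc (0 : ℝ) 1, γ t ≠ c) →
            ((∀ t ∈ Ioc (0 : ℝ) 1, γ t ∉ multibrotSet d) ∨
              (∀ t ∈ Ioc (0 : ℝ) 1, ∀ r > (1 : ℝ),
                γ t ≠ ψ (r * Complex.exp (θ * Complex.I))) ∨
              ∃ K : Set ℂ, K ⊆ multibrotSet d ∧ IsPreconnected K ∧ c ∈ K ∧ K ≠ {c} ∧
                ∀ t ∈ Ioc (0 : ℝ) 1, γ t ∉ K) →
            (∃ φ : ℝ → ℝ, ContinuousOn φ (Ioc 0 1) ∧ ∀ t ∈ Ioc (0 : ℝ) 1,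
                γ t - c = ‖γ t - c‖ * Complex.exp (φ t * Complex.I)) ∧
              ∀ φ : ℝ → ℝ, ContinuousOn φ (Ioc 0 1) → (∀ t ∈ Ioc (0 : ℝ) 1,
                γ t - c = ‖γ t - c‖ * Complex.exp (φ t * Complex.I)) →
                (∀ C : ℝ, ∃ᶠ t : ℝ in 𝓝[>] 0, C < φ t) ∧
                (∀ C : ℝ, ∃ᶠ t : ℝ in 𝓝[>] 0, φ t < C)) ∧
          ((∃ φ : ℝ → ℝ, ContinuousOn φ (Ioi 1) ∧ ∀ r > (1 : ℝ),
              deriv ψ (r * Complex.exp (θ * Complex.I)) =
                ‖deriv ψ (r * Complex.exp (θ * Complex.I))‖ * Complex.exp (φ r * Complex.I)) ∧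
            ∀ φ : ℝ → ℝ, ContinuousOn φ (Ioi 1) → (∀ r > (1 : ℝ),
              deriv ψ (r * Complex.exp (θ * Complex.I)) =
                ‖deriv ψ (r * Complex.exp (θ * Complex.I))‖ * Complex.exp (φ r * Complex.I)) →
              (∀ C : ℝ, ∃ᶠ r : ℝ in 𝓝[>] 1, C < φ r) ∧
              (∀ C : ℝ, ∃ᶠ r : ℝ in 𝓝[>] 1, φ r < C)) ∧
          (∀ C : ℝ, ∃ᶠ r : ℝ in 𝓝[>] 1, C < ‖deriv ψ (r * Complex.exp (θ * Complex.I))‖) ∧
          ∀ ε > (0 : ℝ), ∃ᶠ r : ℝ in 𝓝[>] 1,
            ‖deriv ψ (r * Complex.exp (θ * Complex.I))‖ < ε := by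
  have hd2 : 2 ≤ d := by omega
  obtain ⟨β, hβ⟩ := exists_beta hd2
  exact ⟨⟨_, exteriorMap_of_beta hβ⟩, fun ψ hψ => Pool.Agent.TH425.AD.main_all5 hd2 hψ⟩

end Pool.Agent.Results.MP_fcb70f_an.AlmostAllRaysTwist
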