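import Mathlib
import Pool.Prelude.Def_F_c31e40fa
import Pool.Agent.H713R2.Main4
import Pool.Agent.W677.MD6

set_option autoImplicit false

open Filter Topology N62a1eb23

namespace Pool.Agent.Results.MP_fcb70f_an.DichotomyAllScales

open Pool.Agent.H713R2 Pool.Agent.W677.MD

/-- The Laurent coefficients `b` of the exterior conformal map of the Multibrot set of degree
`d ≥ 3` (the map exists). If `∑ |b_m| < ∞` then

(1) there is `c > 0` such that for every `ε > 0` the maximum of `m |b_m|` over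
`(1 - ε) d ^ n ≤ m < d ^ n` is at least `c` for all large `n`;

(2) for every `ε > 0` there is `c > 0` such that the maximum of `m |b_m|` over
`(1 - ε) N ≤ m < N` is at least `c` for all large `N`.

In particular (3) `b` is not at the same time absolutely summable and `o(1/m)`. -/
theorem result (d : ℕ) (hd : 3 ≤ d) :
    (∃ (ψ : ℂ → ℂ) (b : ℕ → ℂ), IsExteriorMap (multibrotSet d) ψ ∧ HasLaurent ψ b) ∧
    ∀ (ψ : ℂ → ℂ) (b : ℕ → ℂ), IsExteriorMap (multibrotSet d) ψ → HasLaurent ψ b →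
      (Summable (fun m : ℕ => ‖b m‖) →
        (∃ c : ℝ, 0 < c ∧ ∀ ε : ℝ, 0 < ε → ∀ᶠ n : ℕ in atTop,
          ∃ m : ℕ, (1 - ε) * (d : ℝ) ^ n ≤ (m : ℝ) ∧ m < d ^ n ∧ c ≤ (m : ℝ) * ‖b m‖) ∧
        ∀ ε : ℝ, 0 < ε → ∃ c : ℝ, 0 < c ∧ ∀ᶠ N : ℕ in atTop,
          ∃ m : ℕ, (1 - ε) * (N : ℝ) ≤ m ∧ m < N ∧ c ≤ (m : ℝ) * ‖b m‖) ∧
      ¬ (Summable (fun m : ℕ => ‖b m‖) ∧
        Tendsto (fun m : ℕ => (m : ℝ) * ‖b m‖) atTop (𝓝 0)) := by
  have hd2 : 2 ≤ d := by omega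
  obtain ⟨β, hβ⟩ := exists_beta hd2
  refine ⟨⟨_, _, exteriorMap_of_beta hβ, laurent_of_beta hβ⟩, ?_⟩
  intro ψ b hψ hb
  have h1 := exterior_coeff hβ hψ hb
  have hmain : Summable (fun m : ℕ => ‖b m‖) →
      (∃ c : ℝ, 0 < c ∧ ∀ ε : ℝ, 0 < ε → ∀ᶠ n : ℕ in atTop,
        ∃ m : ℕ, (1 - ε) * (d : ℝ) ^ n ≤ (m : ℝ) ∧ m < d ^ n ∧ c ≤ (m : ℝ) * ‖b m‖) ∧
      ∀ ε : ℝ, 0 < ε → ∃ c : ℝ, 0 < c ∧ ∀ᶠ N : ℕ in atTop,
        ∃ m : ℕ, (1 - ε) * (N : ℝ) ≤ m ∧ m < N ∧ c ≤ (m : ℝ) * ‖b m‖ := by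
    intro hs
    have hs' : Summable (fun k => ‖tc β k‖) := by
      rw [← summable_nat_add_iff 1]
      refine hs.congr fun k => ?_
      rw [h1]
    constructor
    · obtain ⟨c, hc, h2⟩ := main_dichotomy' hd2 hβ hs'
      refine ⟨c, hc, fun ε hε => ?_⟩
      have h3 := h2 ε hε
      simp only [h1]
      exact h3
    · intro ε hε
      simp only [h1]
      exact dich_all hd2 hβ hs' hε
  refine ⟨hmain, ?_⟩
  rintro ⟨hs, ht⟩
  obtain ⟨c, hc, h2⟩ := (hmain hs).2 (1 / 2) (by norm_num)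
  obtain ⟨M, hM⟩ := eventually_atTop.1 (ht.eventually (gt_mem_nhds hc))
  obtain ⟨N, ⟨m, hm1, _, hm3⟩, hN⟩ := (h2.and (eventually_ge_atTop (2 * M))).exists
  have hN' : (2 * M : ℝ) ≤ N := by exact_mod_cast hN
  have h5 : (M : ℝ) ≤ m := by linarith
  have h6 := hM m (by exact_mod_cast h5)
  linarith

end Pool.Agent.Results.MP_fcb70f_an.DichotomyAllScales
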