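import Mathlib
import Pool.Prelude.Def_F_c31e40fa
import Pool.Agent.TH653.MC.C17

set_option autoImplicit false

open Filter Topology N62a1eb23

namespace Pool.Agent.Results.MP_fcb70f_an.PowerMeans

open Pool.Agent.H713R2

/-- Power growth of the means of the derivative of the exterior conformal map `ψ` of the Multibrot
set of degree `d ≥ 2` (the map exists). Write `log ψ' z = ∑ a m / z ^ m` with `a 0 = 0`. There are
`c > 0` and `r₀ > 1` such that for every `r` with `1 < r < r₀`: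

for every complex `p` the mean of `|exp (p log ψ')|` over the circle of radius `r` is at least
`(1 / (r - 1)) ^ (c min(|p|, |p| ^ 2))`;

for every real `p` the mean of `|ψ'| ^ p` over the circle of radius `r` is at least
`(1 / (r - 1)) ^ (c min(|p|, p ^ 2))`. -/
theorem result (d : ℕ) (hd : 2 ≤ d) :
    (∃ ψ : ℂ → ℂ, IsExteriorMap (multibrotSet d) ψ) ∧
    ∀ ψ : ℂ → ℂ, IsExteriorMap (multibrotSet d) ψ →
      ∃ a : ℕ → ℂ, a 0 = 0 ∧
        (∀ z : ℂ, 1 < ‖z‖ → Summable (fun m : ℕ => a m / z ^ m) ∧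
          Complex.exp (∑' m : ℕ, a m / z ^ m) = deriv ψ z) ∧
        ∃ c r₀ : ℝ, 0 < c ∧ 1 < r₀ ∧ ∀ r : ℝ, 1 < r → r < r₀ →
          (∀ p : ℂ, (1 / (r - 1)) ^ (c * min ‖p‖ (‖p‖ ^ 2)) ≤
            (2 * Real.pi)⁻¹ * ∫ θ in (0 : ℝ)..2 * Real.pi,
              ‖Complex.exp (p * ∑' m : ℕ, a m / (r * Complex.exp (θ * Complex.I)) ^ m)‖) ∧
          ∀ p : ℝ, (1 / (r - 1)) ^ (c * min |p| (p ^ 2)) ≤
            (2 * Real.pi)⁻¹ * ∫ θ in (0 : ℝ)..2 * Real.pi,
              ‖deriv ψ (r * Complex.exp (θ * Complex.I))‖ ^ p := by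
  obtain ⟨β, hβ⟩ := exists_beta hd
  refine ⟨⟨_, exteriorMap_of_beta hβ⟩, ?_⟩
  intro ψ hψ
  exact Pool.Agent.TH653.MC.power_means hd hψ

end Pool.Agent.Results.MP_fcb70f_an.PowerMeans
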